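import Pool.Agent.H22R2.Main

set_option autoImplicit false

/-! A periodic ring of characteristic 2 with a non-nilpotent `3 × 3` matrix over its nil radical. -/

namespace Pool.Agent.Q108.Nil

open Matrix

section
variable {R : Type*} [Ring R] (D : TwoSidedIdeal R) (hD : ∀ d ∈ D, IsNilpotent d)
  {n : Type*} [Fintype n] [DecidableEq n]

/-- entries in `D` -/
def Over (M : Matrix n n R) : Prop := ∀ i j, M i j ∈ D

omit [DecidableEq n] in
lemma over_mul_left {M : Matrix n n R} (A : Matrix n n R) (h : Over D M) : Over D (A * M) := by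
  intro i j
  rw [Matrix.mul_apply]
  exact sum_mem fun l _ => D.mul_mem_left _ _ (h l j)

omit [DecidableEq n] in
lemma over_mul_right {M : Matrix n n R} (A : Matrix n n R) (h : Over D M) : Over D (M * A) := by
  intro i j
  rw [Matrix.mul_apply]
  exact sum_mem fun l _ => D.mul_mem_right _ _ (h i l)

omit [Fintype n] [DecidableEq n] in
lemma over_neg {M : Matrix n n R} (h : Over D M) : Over D (-M) := fun i j => D.neg_mem (h i j)

lemma over_pow {M : Matrix n n R} (h : Over D M) {k : ℕ} (hk : k ≠ 0) : Over D (M ^ k) := by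
  obtain ⟨k, rfl⟩ := Nat.exists_eq_succ_of_ne_zero hk
  rw [pow_succ]
  exact over_mul_left D _ h

include hD in
lemma left_inv {M : Matrix n n R} (h : Over D M) : ∃ z : Matrix n n R, z * (1 + M) = 1 := by
  have h1 : M ∈ ((⊥ : Ideal R).jacobson).matrix n := by
    intro i j
    change M i j ∈ (⊥ : Ideal R).jacobson
    rw [Ideal.mem_jacobson_iff]
    intro y
    have h2 : IsNilpotent (y * M i j) := hD _ (D.mul_mem_left _ _ (h i j))
    obtain ⟨u, hu⟩ := h2.isUnit_one_add
    refine ⟨↑u⁻¹, ?_⟩
    rw [Ideal.mem_bot]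
    have h3 : (↑u⁻¹ : R) * (1 + y * M i j) = 1 := by rw [← hu]; simp
    rw [mul_add, mul_one, ← mul_assoc] at h3
    rw [add_comm, h3, sub_self]
  have h2 := Ideal.matrix_jacobson_le (n := n) (⊥ : Ideal R) h1
  rw [Ideal.mem_jacobson_iff] at h2
  obtain ⟨z, hz⟩ := h2 1
  refine ⟨z, ?_⟩
  have h3 : z * 1 * M + z - 1 = 0 := by
    ext i j
    have h4 : (z * 1 * M + z - 1 : Matrix n n R) i j ∈ (⊥ : Ideal R) := hz i j
    rw [Ideal.mem_bot] at h4
    exact h4
  rw [mul_add, mul_one]
  rw [mul_one] at h3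
  rw [add_comm]
  exact sub_eq_zero.1 h3

include hD in
lemma isUnit_one_add {M : Matrix n n R} (h : Over D M) : IsUnit (1 + M) := by
  obtain ⟨z, hz⟩ := left_inv D hD h
  have hz2 : z = 1 + -(z * M) := by
    rw [mul_add, mul_one] at hz
    rw [← hz]; abel
  obtain ⟨w, hw⟩ := left_inv D hD (over_neg D (over_mul_left D z h))
  rw [← hz2] at hw
  have h1 : w = 1 + M := by
    calc w = w * (z * (1 + M)) := by rw [hz, mul_one]
      _ = (w * z) * (1 + M) := by rw [mul_assoc]
      _ = 1 + M := by rw [hw, one_mul]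
  rw [h1] at hw
  exact ⟨⟨1 + M, z, hw, hz⟩, rfl⟩

include hD in
/-- A matrix over a nil ideal with `M ^ m = M ^ k`, `m ≠ k`, is nilpotent. -/
lemma nilpotent_of_periodic {M : Matrix n n R} (h : Over D M) {m k : ℕ} (hmk : m ≠ k)
    (he : M ^ m = M ^ k) : IsNilpotent M := by
  wlog hlt : k < m generalizing m k
  · exact this hmk.symm he.symm (by omega)
  have h1 : IsUnit (1 + -(M ^ (m - k))) :=
    isUnit_one_add D hD (over_neg D (over_pow D h (by omega)))
  have h2 : M ^ k * (1 + -(M ^ (m - k))) = 0 := by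
    rw [mul_add, mul_one, mul_neg, ← pow_add, Nat.add_sub_cancel' hlt.le, he]
    abel
  refine ⟨k, ?_⟩
  obtain ⟨u, hu⟩ := h1
  rw [← hu] at h2
  exact (Units.mul_left_eq_zero u).1 h2

include hD in
/-- A unit `1 + M` with `M` over a nil ideal of a ring of characteristic 2, some power of which is
unipotent: `M` is nilpotent. -/
lemma nilpotent_of_unipotent [CharP R 2] {M : Matrix n n R} (h : Over D M) {i : ℕ} (hi : i ≠ 0)
    (hu : IsNilpotent ((1 + M) ^ i - 1)) : IsNilpotent M := by
  rcases isEmpty_or_nonempty n with hn | hn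
  · exact ⟨1, Subsingleton.elim _ _⟩
  have : CharP (Matrix n n R) 2 := inferInstance
  obtain ⟨a, m, hm, rfl⟩ := Nat.exists_eq_two_pow_mul_odd hi
  have h1 : (1 + M) ^ 2 ^ a = 1 + M ^ 2 ^ a := by
    rw [add_pow_char_pow_of_commute 2 a (Commute.one_left M), one_pow]
  set N := M ^ 2 ^ a with hN
  have hNo : Over D N := over_pow D h (by positivity)
  rw [pow_mul, h1] at hu
  -- `(1 + N) ^ m - 1 = N * V`
  set V := ∑ j ∈ Finset.range m, (1 + N) ^ j with hV
  have h2 : (1 + N) ^ m - 1 = N * V := by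
    have := Commute.mul_geom_sum₂ (Commute.one_right (1 + N)) m
    simp only [one_pow, mul_one] at this
    rw [← this, hV]
    congr 1
    abel
  have hcomm : Commute N V := by
    rw [hV]
    apply Commute.sum_right
    intro j _
    exact ((Commute.one_right N).add_right (Commute.refl N)).pow_right j
  -- `V = 1 + (over D)`
  have h3 : ∀ j : ℕ, Over D ((1 + N) ^ j - 1) := by
    intro j
    have := Commute.mul_geom_sum₂ (Commute.one_right (1 + N)) j
    simp only [one_pow, mul_one] at this
    rw [← this]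
    have h4 : (1 + N - 1 : Matrix n n R) = N := by abel
    rw [h4]
    exact over_mul_right D _ hNo
  have hodd : (m : Matrix n n R) = 1 := by
    obtain ⟨l, rfl⟩ := hm
    push_cast
    have : (2 : Matrix n n R) = 0 := CharTwo.two_eq_zero
    rw [this]; simp
  have h5 : Over D (V - 1) := by
    have h6 : V - 1 = ∑ j ∈ Finset.range m, ((1 + N) ^ j - 1) := by
      rw [Finset.sum_sub_distrib, ← hV]
      simp only [Finset.sum_const, Finset.card_range, nsmul_eq_mul, mul_one]
      rw [hodd]
    rw [h6]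
    intro i j
    rw [Matrix.sum_apply]
    exact sum_mem fun l _ => h3 l i j
  have hVu : IsUnit V := by
    have := isUnit_one_add D hD h5
    rwa [add_sub_cancel] at this
  rw [h2] at hu
  obtain ⟨k, hk⟩ := hu
  rw [hcomm.mul_pow] at hk
  obtain ⟨v, hv⟩ := hVu.pow k
  rw [← hv] at hk
  have h7 : N ^ k = 0 := (Units.mul_left_eq_zero v).1 hk
  exact ⟨2 ^ a * k, by rw [pow_mul]; exact h7⟩
end

/-- The subring `F_2 + D`. -/
def sub {B : Type*} [Ring B] (D : TwoSidedIdeal B) (h2 : (2 : B) = 0) : Subring B where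
  carrier := {b | b ∈ D ∨ b - 1 ∈ D}
  mul_mem' := by
    rintro a b (ha | ha) (hb | hb)
    · exact Or.inl (D.mul_mem_left _ _ hb)
    · exact Or.inl (D.mul_mem_right _ _ ha)
    · exact Or.inl (D.mul_mem_left _ _ hb)
    · right
      have : a * b - 1 = (a - 1) * b + (b - 1) := by noncomm_ring
      rw [this]
      exact D.add_mem (D.mul_mem_right _ _ ha) hb
  one_mem' := by right; rw [sub_self]; exact D.zero_mem
  add_mem' := by
    rintro a b (ha | ha) (hb | hb)
    · exact Or.inl (D.add_mem ha hb)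
    · right; rw [add_sub_assoc]; exact D.add_mem ha hb
    · right
      have : a + b - 1 = (a - 1) + b := by abel
      rw [this]; exact D.add_mem ha hb
    · left
      have : a + b = (a - 1) + (b - 1) + 2 := by
        have : (2 : B) = 1 + 1 := by norm_num
        rw [this]; abel
      rw [this, h2, add_zero]; exact D.add_mem ha hb
  zero_mem' := Or.inl D.zero_mem
  neg_mem' := by
    rintro a (ha | ha)
    · exact Or.inl (D.neg_mem ha)
    · right
      have : -a - 1 = -(a - 1) + (-2) := by
        have : (2 : B) = 1 + 1 := by norm_num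
        rw [this]; abel
      rw [this, h2, neg_zero, add_zero]; exact D.neg_mem ha

/-- **Main construction.** A ring `R` of characteristic 2 in which every element satisfies
`x ^ m = x ^ k` for some `m > k > 0`, a nil ideal `D` of `R` and a `3 × 3` matrix over `D` which
is not nilpotent. -/
theorem main : ∃ (R : Type) (_ : Ring R) (_ : CharP R 2) (D : TwoSidedIdeal R),
    (∀ d ∈ D, IsNilpotent d) ∧ (∀ x : R, x ∈ D ∨ x - 1 ∈ D) ∧
      (∀ x : R, ∃ m k : ℕ, 0 < k ∧ k < m ∧ x ^ m = x ^ k) ∧
      ∃ M : Matrix (Fin 3) (Fin 3) R, Over D M ∧ ¬ IsNilpotent M := by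
  obtain ⟨B, _, _, D, hD, M, hM, hnil⟩ :=
    Pool.Agent.H22R2.exists_nil_ideal_matrix (ZMod 2)
  have hnt : Nontrivial B := by
    by_contra hcon
    rw [not_nontrivial_iff_subsingleton] at hcon
    exact hnil ⟨1, Subsingleton.elim _ _⟩
  have : CharP B 2 := by
    have : CharP (ZMod 2) 2 := ZMod.charP 2
    exact charP_of_injective_algebraMap (algebraMap (ZMod 2) B).injective 2
  have h2 : (2 : B) = 0 := CharTwo.two_eq_zero
  let S := sub D h2
  let D' : TwoSidedIdeal S := TwoSidedIdeal.comap S.subtype D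
  have hmem : ∀ s : S, s ∈ D' ↔ (s : B) ∈ D := fun s => TwoSidedIdeal.mem_comap _
  have : CharP S 2 := inferInstance
  have hD' : ∀ d ∈ D', IsNilpotent d := by
    intro d hd
    obtain ⟨n, hn⟩ := hD _ ((hmem d).1 hd)
    exact ⟨n, Subtype.ext (by simpa using hn)⟩
  refine ⟨S, inferInstance, inferInstance, D', hD', fun x => ?_, ?_, ?_⟩
  · rcases x.2 with hx | hx
    · exact Or.inl ((hmem x).2 hx)
    · exact Or.inr ((hmem _).2 (by simpa using hx))
  · intro x
    rcases x.2 with hx | hx
    · obtain ⟨n, hn⟩ := hD' x ((hmem x).2 hx)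
      refine ⟨n + 2, n + 1, by omega, by omega, ?_⟩
      rw [pow_add, pow_add, hn, zero_mul, zero_mul]
    · have hx' : x - 1 ∈ D' := (hmem _).2 (by simpa using hx)
      obtain ⟨n, hn⟩ := hD' _ hx'
      have h1 : x ^ 2 ^ n = 1 := by
        have h3 : x = 1 + (x - 1) := by abel
        have h4 : (1 + (x - 1)) ^ 2 ^ n = 1 + (x - 1) ^ 2 ^ n := by
          rw [add_pow_char_pow_of_commute 2 n (Commute.one_left (x - 1)), one_pow]
        rw [h3, h4]
        have h5 : (x - 1) ^ 2 ^ n = 0 := by
          have : n ≤ 2 ^ n := Nat.lt_two_pow_self.le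
          rw [← Nat.add_sub_cancel' this, pow_add, hn, zero_mul]
        rw [h5, add_zero]
      refine ⟨2 ^ n + 1, 1, by omega, ?_, ?_⟩
      · have : 0 < 2 ^ n := by positivity
        omega
      · rw [pow_add, h1, one_mul]
  · let M' : Matrix (Fin 3) (Fin 3) S := Matrix.of fun i j => ⟨M i j, Or.inl (hM i j)⟩
    refine ⟨M', fun i j => (hmem _).2 (hM i j), ?_⟩
    rintro ⟨n, hn⟩
    apply hnil
    refine ⟨n, ?_⟩
    have h6 : S.subtype.mapMatrix (M' ^ n) = S.subtype.mapMatrix 0 := by rw [hn]
    rw [map_pow, map_zero] at h6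
    exact h6

end Pool.Agent.Q108.Nil
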